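import Mathlib
import Pool.Agent.H632R3.BranchLim

open Pool.Agent.H632R3.Branch

namespace Pool.Agent.Results.MP_34b196_pr.ContinuumOfFixedPoints

/-- For every multitype branching process with countably many types (irreducible or not) whose
global extinction vector `q` differs from its partial extinction vector `q~`, the set of fixed
points `s` of the generating function with `q ≤ s ≤ q~` has the cardinality of the continuum. -/
theorem result (X : Type) [Countable X] (μ : X → PMF (X →₀ ℕ)) (hne : qGlobal μ ≠ qPartial μ) :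
    Cardinal.mk {s : X → ℝ // (∀ x, 0 ≤ s x ∧ s x ≤ 1) ∧ gen μ s = s ∧
      qGlobal μ ≤ s ∧ s ≤ qPartial μ} = Cardinal.continuum := by
  apply le_antisymm
  · refine (Cardinal.mk_subtype_le _).trans ?_
    have h1 : Cardinal.mk (X → ℝ) = Cardinal.mk ℝ ^ Cardinal.mk X := by
      simp
    rw [h1, Cardinal.mk_real]
    calc Cardinal.continuum ^ Cardinal.mk X ≤ Cardinal.continuum ^ Cardinal.aleph0 :=
          Cardinal.power_le_power_left Cardinal.continuum_ne_zero (Cardinal.mk_le_aleph0)
      _ = Cardinal.continuum := Cardinal.continuum_power_aleph0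
  · obtain ⟨x0, hx0⟩ : ∃ x0, qGlobal μ x0 < qPartial μ x0 := by
      by_contra hcon
      push Not at hcon
      exact hne (le_antisymm (qGlobal_le μ) hcon)
    have h2 : Cardinal.mk (Set.Ioo (qGlobal μ x0) (qPartial μ x0)) = Cardinal.continuum :=
      Cardinal.mk_Ioo_real hx0
    rw [← h2]
    choose s hs using fun c : Set.Ioo (qGlobal μ x0) (qPartial μ x0) =>
      exists_fixed μ x0 c.1 c.2.1 c.2.2
    refine Cardinal.mk_le_of_injective (f := fun c => ⟨s c, (hs c).1, (hs c).2.1,
      (hs c).2.2.1, (hs c).2.2.2.1⟩) ?_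
    intro c c' h
    have h3 : s c = s c' := congrArg Subtype.val h
    apply Subtype.ext
    rw [← (hs c).2.2.2.2, ← (hs c').2.2.2.2, h3]

end Pool.Agent.Results.MP_34b196_pr.ContinuumOfFixedPoints
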